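import Mathlib

namespace Pool.Agent.H349R2

/-- `EpsEquidist ε x r N`: for every `[a,b) ⊆ [0,1]` the proportion of `n ∈ {1,…,N}` with
`fract (x r^n) ∈ [a,b)` differs from `b - a` by at most `ε`. -/
def EpsEquidist (ε x : ℝ) (r N : ℕ) : Prop :=
  ∀ a b : ℝ, 0 ≤ a → a < b → b ≤ 1 →
    |((((Finset.Icc 1 N).filter
        (fun n : ℕ => a ≤ Int.fract (x * (r : ℝ) ^ n) ∧
          Int.fract (x * (r : ℝ) ^ n) < b)).card : ℝ) / (N : ℝ)) - (b - a)| ≤ ε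

end Pool.Agent.H349R2
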