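import Mathlib

open Finset MeasureTheory AddCircle

namespace Pool.Agent.H349R2

/-- Evaluation of a trigonometric polynomial with coefficients `c`. -/
noncomputable def trigEval (c : ℤ →₀ ℂ) (x : UnitAddCircle) : ℂ :=
  c.sum fun h a => a * fourier h x

lemma integral_fourier_eq (h : ℤ) :
    ∫ x : UnitAddCircle, (fourier h x : ℂ) ∂haarAddCircle = if h = 0 then 1 else 0 := by
  split_ifs with hh
  · subst hh
    simp
  · have := integral_eq_zero_of_add_right_eq_neg (μ := (haarAddCircle : Measure UnitAddCircle))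
      (fourier_add_half_inv_index hh (zero_lt_one))
    exact this

lemma integral_trigEval (c : ℤ →₀ ℂ) :
    ∫ x : UnitAddCircle, trigEval c x ∂haarAddCircle = c 0 := by
  unfold trigEval
  simp only [Finsupp.sum]
  rw [integral_finsetSum]
  · simp only [integral_const_mul, integral_fourier_eq, mul_ite, mul_one, mul_zero]
    rw [Finset.sum_ite_eq']
    split_ifs with h0
    · rfl
    · simpa [eq_comm] using h0
  · intro i _
    apply Integrable.const_mul
    exact (ContinuousMap.continuous (fourier i)).integrable_of_hasCompactSupport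
      (HasCompactSupport.of_compactSpace _)

/-- The bump function. -/
noncomputable def bump (c : UnitAddCircle) (ρ κ : ℝ) (x : UnitAddCircle) : ℝ :=
  max 0 (min 1 (1 - (‖x - c‖ - ρ) / κ))

lemma bump_nonneg (c : UnitAddCircle) (ρ κ : ℝ) (x : UnitAddCircle) : 0 ≤ bump c ρ κ x :=
  le_max_left _ _

lemma bump_le_one (c : UnitAddCircle) (ρ κ : ℝ) (x : UnitAddCircle) : bump c ρ κ x ≤ 1 :=
  max_le zero_le_one (min_le_left _ _)

lemma bump_eq_one {c : UnitAddCircle} {ρ κ : ℝ} (hκ : 0 < κ) {x : UnitAddCircle}
    (h : ‖x - c‖ ≤ ρ) : bump c ρ κ x = 1 := by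
  unfold bump
  have : (‖x - c‖ - ρ) / κ ≤ 0 := div_nonpos_of_nonpos_of_nonneg (by linarith) hκ.le
  rw [min_eq_left (by linarith)]
  norm_num

lemma bump_eq_zero {c : UnitAddCircle} {ρ κ : ℝ} (hκ : 0 < κ) {x : UnitAddCircle}
    (h : ρ + κ ≤ ‖x - c‖) : bump c ρ κ x = 0 := by
  unfold bump
  have : 1 ≤ (‖x - c‖ - ρ) / κ := by
    rw [le_div_iff₀ hκ]; linarith
  apply max_eq_left
  exact (min_le_right _ _).trans (by linarith)

lemma continuous_bump (c : UnitAddCircle) (ρ κ : ℝ) : Continuous (bump c ρ κ) := by
  unfold bump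
  fun_prop

lemma integral_bump_le (c : UnitAddCircle) {ρ κ : ℝ} (hρ : 0 ≤ ρ) (hκ : 0 < κ) :
    ∫ x : UnitAddCircle, bump c ρ κ x ∂haarAddCircle ≤ 2 * (ρ + κ) := by
  have hvol : (haarAddCircle : Measure UnitAddCircle) = volume := by
    have := AddCircle.volume_eq_smul_haarAddCircle (T := (1:ℝ))
    simpa using this.symm
  rw [hvol]
  have h1 : ∫ x : UnitAddCircle, bump c ρ κ x ≤
      ∫ x : UnitAddCircle, (Metric.closedBall c (ρ + κ)).indicator (fun _ => (1:ℝ)) x := by
    apply integral_mono
    · exact (continuous_bump c ρ κ).integrable_of_hasCompactSupport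
        (HasCompactSupport.of_compactSpace _)
    · exact (integrable_const (1:ℝ)).indicator measurableSet_closedBall
    · intro x
      by_cases hx : x ∈ Metric.closedBall c (ρ + κ)
      · simp only [Set.indicator_of_mem hx]
        exact bump_le_one _ _ _ _
      · simp only [Set.indicator_of_notMem hx]
        apply le_of_eq
        apply bump_eq_zero hκ
        rw [Metric.mem_closedBall, dist_eq_norm] at hx
        linarith [not_le.mp hx]
  refine h1.trans ?_
  rw [integral_indicator measurableSet_closedBall]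
  simp only [integral_const, smul_eq_mul, mul_one, Measure.real, Measure.restrict_apply_univ]
  rw [AddCircle.volume_closedBall]
  rw [ENNReal.toReal_ofReal (by positivity)]
  exact min_le_right _ _

lemma exists_trig_approx (f : C(UnitAddCircle, ℂ)) {κ : ℝ} (hκ : 0 < κ) :
    ∃ c : ℤ →₀ ℂ, ∀ x, ‖f x - trigEval c x‖ ≤ κ := by
  have hf : f ∈ (Submodule.span ℂ (Set.range <| @fourier (1:ℝ))).topologicalClosure := by
    rw [span_fourier_closure_eq_top]; trivial
  rw [← SetLike.mem_coe, Submodule.topologicalClosure_coe, Metric.mem_closure_iff] at hf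
  obtain ⟨g, hg, hfg⟩ := hf κ hκ
  rw [SetLike.mem_coe, Finsupp.mem_span_range_iff_exists_finsupp] at hg
  obtain ⟨c, rfl⟩ := hg
  refine ⟨c, fun x => ?_⟩
  have h2 := (ContinuousMap.dist_lt_iff hκ).1 hfg x
  rw [dist_eq_norm] at h2
  have h3 : (c.sum fun i a => a • fourier i : C(UnitAddCircle, ℂ)) x = trigEval c x := by
    simp [trigEval, Finsupp.sum]
  rw [h3] at h2
  exact h2.le

/-- Trigonometric majorant of the cell `[i/K, (i+1)/K)`. -/
lemma exists_majorant {K : ℕ} (hK : 0 < K) {κ : ℝ} (hκ : 0 < κ) (i : ℕ) :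
    ∃ c : ℤ →₀ ℂ, (∀ x : UnitAddCircle, 0 ≤ (trigEval c x).re + κ) ∧
      (∀ x : ℝ, (i:ℝ) / K ≤ Int.fract x → Int.fract x < ((i:ℝ) + 1) / K →
        1 ≤ (trigEval c (x : UnitAddCircle)).re + κ) ∧
      (c 0).re ≤ 1 / K + 3 * κ := by
  have hKR : (0:ℝ) < K := by exact_mod_cast hK
  set y : ℝ := ((i:ℝ) + 1/2) / K with hy
  set ρ : ℝ := 1 / (2 * K) with hρ
  have hρ0 : 0 < ρ := by positivity
  let f : C(UnitAddCircle, ℂ) := ⟨fun x => ((bump (y : UnitAddCircle) ρ κ x : ℝ) : ℂ),
    Complex.continuous_ofReal.comp (continuous_bump _ _ _)⟩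
  obtain ⟨c, hc⟩ := exists_trig_approx f hκ
  have hre : ∀ x, |bump (y : UnitAddCircle) ρ κ x - (trigEval c x).re| ≤ κ := by
    intro x
    have h1 := (Complex.abs_re_le_norm (f x - trigEval c x)).trans (hc x)
    simpa [f] using h1
  refine ⟨c, ?_, ?_, ?_⟩
  · intro x
    have h1 := abs_le.mp (hre x)
    have h2 := bump_nonneg (y : UnitAddCircle) ρ κ x
    linarith
  · intro x hx1 hx2
    have h1 := abs_le.mp (hre (x : UnitAddCircle))
    have h2 : bump (y : UnitAddCircle) ρ κ (x : UnitAddCircle) = 1 := by
      apply bump_eq_one hκ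
      have hxf : ((x : ℝ) : UnitAddCircle) = ((Int.fract x : ℝ) : UnitAddCircle) :=
        (AddCircle.coe_fract x).symm
      rw [hxf, ← AddCircle.coe_sub]
      have hb : |Int.fract x - y| ≤ ρ := by
        have e1 : ((i:ℝ) + 1) / K = y + ρ := by
          rw [hy, hρ]; field_simp; ring
        have e2 : (i:ℝ) / K = y - ρ := by
          rw [hy, hρ]; field_simp; ring
        rw [abs_le]
        constructor <;> linarith
      refine le_trans ?_ hb
      have h3 := AddCircle.norm_coe_eq_abs_iff (p := (1:ℝ)) (x := Int.fract x - y) one_ne_zero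
      by_cases hle : |Int.fract x - y| ≤ |(1:ℝ)| / 2
      · exact (h3.2 hle).le
      · have h4 := AddCircle.norm_le_half_period (p := (1:ℝ)) (x := ((Int.fract x - y : ℝ) : UnitAddCircle)) one_ne_zero
        exact h4.trans (not_le.mp hle).le
    linarith
  · have h1 : (c 0).re = (∫ x : UnitAddCircle, trigEval c x ∂haarAddCircle).re := by
      rw [integral_trigEval]
    have hcont : Continuous (trigEval c) := by
      unfold trigEval Finsupp.sum
      exact continuous_finsetSum _ fun i _ => continuous_const.mul (fourier i).continuous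
    have hint : Integrable (trigEval c) (haarAddCircle : Measure UnitAddCircle) :=
      hcont.integrable_of_hasCompactSupport (HasCompactSupport.of_compactSpace _)
    have h2 : (∫ x : UnitAddCircle, trigEval c x ∂haarAddCircle).re
        = ∫ x : UnitAddCircle, (trigEval c x).re ∂haarAddCircle := by
      exact (integral_re hint).symm
    have h3 : ∫ x : UnitAddCircle, (trigEval c x).re ∂haarAddCircle
        ≤ ∫ x : UnitAddCircle, (bump (y : UnitAddCircle) ρ κ x + κ) ∂haarAddCircle := by
      apply integral_mono hint.re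
      · exact ((continuous_bump _ ρ κ).add continuous_const).integrable_of_hasCompactSupport
          (HasCompactSupport.of_compactSpace _)
      · intro x
        have := abs_le.mp (hre x)
        change (trigEval c x).re ≤ bump (y : UnitAddCircle) ρ κ x + κ
        linarith
    have h4 : ∫ x : UnitAddCircle, (bump (y : UnitAddCircle) ρ κ x + κ) ∂haarAddCircle
        = (∫ x : UnitAddCircle, bump (y : UnitAddCircle) ρ κ x ∂haarAddCircle) + κ := by
      rw [integral_add]
      · simp
      · exact (continuous_bump _ ρ κ).integrable_of_hasCompactSupport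
          (HasCompactSupport.of_compactSpace _)
      · exact integrable_const _
    have h5 := integral_bump_le (y : UnitAddCircle) hρ0.le hκ
    have h6 : 2 * (ρ + κ) + κ = 1 / K + 3 * κ := by
      rw [hρ]; field_simp; ring
    rw [h1, h2]
    linarith

end Pool.Agent.H349R2
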