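import Mathlib

open Finset

namespace Pool.Agent.H349R2

lemma sum_exp_eq (q : ℕ) (hq : 0 < q) (t : ℤ) :
    ∑ a ∈ range q, Complex.exp (2 * Real.pi * Complex.I * ((a:ℂ) * t / q))
      = if (q:ℤ) ∣ t then (q:ℂ) else 0 := by
  have hqC : (q:ℂ) ≠ 0 := by exact_mod_cast hq.ne'
  split_ifs with h
  · obtain ⟨k, rfl⟩ := h
    have : ∀ a ∈ range q, Complex.exp (2 * Real.pi * Complex.I * ((a:ℂ) * ((q:ℤ) * k : ℤ) / q)) = 1 := by
      intro a _
      rw [Complex.exp_eq_one_iff]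
      refine ⟨a * k, ?_⟩
      push_cast
      field_simp
    rw [Finset.sum_congr rfl this]
    simp
  · set z : ℂ := Complex.exp (2 * Real.pi * Complex.I * ((t:ℂ) / q)) with hz
    have h1 : ∀ a ∈ range q, Complex.exp (2 * Real.pi * Complex.I * ((a:ℂ) * t / q)) = z ^ a := by
      intro a _
      rw [hz, ← Complex.exp_nat_mul]
      congr 1
      ring
    rw [Finset.sum_congr rfl h1]
    have hz1 : z ≠ 1 := by
      intro hcon
      rw [hz, Complex.exp_eq_one_iff] at hcon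
      obtain ⟨n, hn⟩ := hcon
      have hpi : (2 * Real.pi * Complex.I : ℂ) ≠ 0 := Complex.two_pi_I_ne_zero
      have h2 : (t:ℂ) / q = n := by
        have : (2 * Real.pi * Complex.I : ℂ) * ((t:ℂ) / q) = (2 * Real.pi * Complex.I) * n := by
          rw [hn]; ring
        exact mul_left_cancel₀ hpi this
      rw [div_eq_iff hqC] at h2
      apply h
      refine ⟨n, ?_⟩
      have : (t:ℂ) = ((q * n : ℤ) : ℂ) := by push_cast; rw [h2]; ring
      exact_mod_cast this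
    have hzq : z ^ q = 1 := by
      rw [hz, ← Complex.exp_nat_mul, Complex.exp_eq_one_iff]
      refine ⟨t, ?_⟩
      field_simp
    rw [geom_sum_eq hz1, hzq]
    simp

/-- The exponential sum. -/
noncomputable def S (h : ℤ) (r N : ℕ) (x : ℝ) : ℂ :=
  ∑ n ∈ Icc 1 N, fourier h ((x * (r:ℝ) ^ n : ℝ) : UnitAddCircle)

lemma fourier_real (h : ℤ) (x : ℝ) :
    (fourier h ((x : ℝ) : UnitAddCircle) : ℂ) = Complex.exp (2 * Real.pi * Complex.I * ((h:ℂ) * x)) := by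
  rw [fourier_coe_apply]
  congr 1
  push_cast
  ring

lemma variance (h : ℤ) (r N q : ℕ) (hq : 0 < q) (ξ : ℝ) :
    ∑ a ∈ range q, ‖S h r N (ξ + (a:ℝ) / q)‖ ^ 2 ≤
      (q:ℝ) * (((Icc 1 N ×ˢ Icc 1 N).filter
        (fun p : ℕ × ℕ => (q:ℤ) ∣ h * ((r:ℤ) ^ p.1 - (r:ℤ) ^ p.2))).card : ℝ) := by
  have hqC : (q:ℂ) ≠ 0 := by exact_mod_cast hq.ne'
  have key : ((∑ a ∈ range q, ‖S h r N (ξ + (a:ℝ) / q)‖ ^ 2 : ℝ) : ℂ) =
      ∑ p ∈ Icc 1 N ×ˢ Icc 1 N,
        Complex.exp (2 * Real.pi * Complex.I * ((h:ℂ) * ξ * ((r:ℂ) ^ p.1 - (r:ℂ) ^ p.2))) *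
          (if (q:ℤ) ∣ h * ((r:ℤ) ^ p.1 - (r:ℤ) ^ p.2) then (q:ℂ) else 0) := by
    push_cast
    have h1 : ∀ a ∈ range q, ((‖S h r N (ξ + (a:ℝ) / q)‖ : ℂ)) ^ 2 =
        ∑ p ∈ Icc 1 N ×ˢ Icc 1 N,
          Complex.exp (2 * Real.pi * Complex.I * ((h:ℂ) * ξ * ((r:ℂ) ^ p.1 - (r:ℂ) ^ p.2))) *
          Complex.exp (2 * Real.pi * Complex.I *
            ((a:ℂ) * ((h * ((r:ℤ) ^ p.1 - (r:ℤ) ^ p.2) : ℤ) : ℂ) / q)) := by
      intro a _
      rw [← Complex.mul_conj']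
      unfold S
      rw [map_sum, Finset.sum_mul_sum, ← Finset.sum_product']
      refine Finset.sum_congr rfl fun p _ => ?_
      rw [fourier_real, fourier_real, ← Complex.exp_conj, ← Complex.exp_add, ← Complex.exp_add]
      congr 1
      simp only [map_mul, Complex.conj_I, Complex.conj_ofReal]
      have : (starRingEnd ℂ) (h:ℂ) = h := map_intCast (starRingEnd ℂ) h
      rw [this]
      have h2 : (starRingEnd ℂ) 2 = 2 := Complex.conj_ofNat 2
      rw [h2]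
      push_cast
      ring
    rw [Finset.sum_congr rfl h1, Finset.sum_comm]
    refine Finset.sum_congr rfl fun p _ => ?_
    rw [← Finset.mul_sum, sum_exp_eq q hq]
  have h2 : ∑ a ∈ range q, ‖S h r N (ξ + (a:ℝ) / q)‖ ^ 2 =
      ‖((∑ a ∈ range q, ‖S h r N (ξ + (a:ℝ) / q)‖ ^ 2 : ℝ) : ℂ)‖ := by
    rw [Complex.norm_real, Real.norm_of_nonneg]
    positivity
  rw [h2, key]
  refine (norm_sum_le _ _).trans ?_
  have h3 : ∀ p ∈ Icc 1 N ×ˢ Icc 1 N,
      ‖Complex.exp (2 * Real.pi * Complex.I * ((h:ℂ) * ξ * ((r:ℂ) ^ p.1 - (r:ℂ) ^ p.2))) *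
          (if (q:ℤ) ∣ h * ((r:ℤ) ^ p.1 - (r:ℤ) ^ p.2) then (q:ℂ) else 0)‖ =
        if (q:ℤ) ∣ h * ((r:ℤ) ^ p.1 - (r:ℤ) ^ p.2) then (q:ℝ) else 0 := by
    intro p _
    rw [norm_mul]
    have : (2 * Real.pi * Complex.I * ((h:ℂ) * ξ * ((r:ℂ) ^ p.1 - (r:ℂ) ^ p.2)) : ℂ) =
        ((2 * Real.pi * (h * ξ * ((r:ℝ) ^ p.1 - (r:ℝ) ^ p.2)) : ℝ) : ℂ) * Complex.I := by
      push_cast; ring
    rw [this, Complex.norm_exp_ofReal_mul_I, one_mul]
    split_ifs <;> simp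
  rw [Finset.sum_congr rfl h3, ← Finset.sum_filter, Finset.sum_const, nsmul_eq_mul, mul_comm]

/-- Counting pairs with `r^n ≡ r^m`. -/
lemma card_pairs (h : ℤ) (r N q K R : ℕ) (hqp : q.Prime) (hK : 0 < K) (hr : 2 ≤ r) (hrR : r ≤ R)
    (hq : R ^ K < q) (hh : h ≠ 0) (hhq : |h| < q) :
    ((Icc 1 N ×ˢ Icc 1 N).filter
        (fun p : ℕ × ℕ => (q:ℤ) ∣ h * ((r:ℤ) ^ p.1 - (r:ℤ) ^ p.2))).card ≤ N * (N / K + 1) := by
  classical
  have hqZ : Prime (q:ℤ) := Nat.prime_iff_prime_int.mp hqp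
  have hrq : r < q := by
    calc r ≤ R := hrR
      _ = R ^ 1 := (pow_one R).symm
      _ ≤ R ^ K := Nat.pow_le_pow_right (by omega) hK
      _ < q := hq
  have hnh : ¬ (q:ℤ) ∣ h := by
    intro hd
    have := Int.le_of_dvd (abs_pos.mpr hh) ((dvd_abs _ _).mpr hd)
    omega
  have hnr : ¬ (q:ℤ) ∣ (r:ℤ) := by
    intro hd
    have := Int.le_of_dvd (by omega) hd
    omega
  -- key: for m < m' with difference < K, q does not divide
  have key : ∀ m d : ℕ, 0 < d → d < K → ¬ (q:ℤ) ∣ (r:ℤ) ^ m - (r:ℤ) ^ (m + d) := by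
    intro m d hd hdK hcon
    have e1 : (r:ℤ) ^ m - (r:ℤ) ^ (m + d) = (r:ℤ) ^ m * (-( (r:ℤ) ^ d - 1)) := by
      rw [pow_add]; ring
    rw [e1] at hcon
    rcases hqZ.dvd_or_dvd hcon with h1 | h1
    · exact hnr (hqZ.dvd_of_dvd_pow h1)
    · rw [dvd_neg] at h1
      have h2 : (2:ℤ) ≤ (r:ℤ) ^ d := by
        calc (2:ℤ) ≤ r := by exact_mod_cast hr
          _ = (r:ℤ) ^ 1 := (pow_one _).symm
          _ ≤ (r:ℤ) ^ d := pow_le_pow_right₀ (by omega) hd
      have h3 := Int.le_of_dvd (by linarith) h1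
      have h4 : (r:ℤ) ^ d ≤ (R:ℤ) ^ K := by
        calc (r:ℤ) ^ d ≤ (r:ℤ) ^ K := pow_le_pow_right₀ (by omega) hdK.le
          _ ≤ (R:ℤ) ^ K := pow_le_pow_left₀ (by omega) (by exact_mod_cast hrR) K
      have h5 : (R:ℤ) ^ K < q := by exact_mod_cast hq
      linarith
  have hsub : ((Icc 1 N ×ˢ Icc 1 N).filter
        (fun p : ℕ × ℕ => (q:ℤ) ∣ h * ((r:ℤ) ^ p.1 - (r:ℤ) ^ p.2))) ⊆
      (Icc 1 N).biUnion (fun n => ((Icc 1 N).filter
        (fun m => (q:ℤ) ∣ h * ((r:ℤ) ^ n - (r:ℤ) ^ m))).image (fun m => (n, m))) := by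
    intro p hp
    simp only [mem_filter, mem_product, mem_biUnion, mem_image] at hp ⊢
    exact ⟨p.1, hp.1.1, p.2, ⟨hp.1.2, hp.2⟩, rfl⟩
  refine (card_le_card hsub).trans ?_
  refine (card_biUnion_le).trans ?_
  have hfib : ∀ n ∈ Icc 1 N, (((Icc 1 N).filter
        (fun m => (q:ℤ) ∣ h * ((r:ℤ) ^ n - (r:ℤ) ^ m))).image (fun m => (n, m))).card ≤ N / K + 1 := by
    intro n _
    refine card_image_le.trans ?_
    have : ((Icc 1 N).filter
        (fun m => (q:ℤ) ∣ h * ((r:ℤ) ^ n - (r:ℤ) ^ m))).card ≤ (range (N / K + 1)).card := by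
      apply card_le_card_of_injOn (fun m => m / K)
      · intro m hm
        simp only [coe_filter, mem_Icc, Set.mem_ofPred_eq] at hm
        simp only [coe_range, Set.mem_Iio]
        have := Nat.div_le_div_right (c := K) hm.1.2
        omega
      · intro m hm m' hm' heq
        simp only [coe_filter, mem_Icc, Set.mem_ofPred_eq] at hm hm'
        simp only at heq
        by_contra hne
        have hdiff : ∀ u v : ℕ, u < v → u / K = v / K → (q:ℤ) ∣ h * ((r:ℤ) ^ n - (r:ℤ) ^ u) →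
            (q:ℤ) ∣ h * ((r:ℤ) ^ n - (r:ℤ) ^ v) → False := by
          intro u v huv hdiv hu hv
          have hlt : v - u < K := by
            have h1 := Nat.div_add_mod u K
            have h2 := Nat.div_add_mod v K
            have h3 := Nat.mod_lt u hK
            have h4 := Nat.mod_lt v hK
            rw [hdiv] at h1
            omega
          have h5 : (q:ℤ) ∣ h * ((r:ℤ) ^ u - (r:ℤ) ^ v) := by
            have := dvd_sub hv hu
            have e : h * ((r:ℤ) ^ n - (r:ℤ) ^ v) - h * ((r:ℤ) ^ n - (r:ℤ) ^ u) =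
              h * ((r:ℤ) ^ u - (r:ℤ) ^ v) := by ring
            rwa [e] at this
          rcases hqZ.dvd_or_dvd h5 with h6 | h6
          · exact hnh h6
          · have := key u (v - u) (by omega) hlt
            rw [Nat.add_sub_cancel' huv.le] at this
            exact this h6
        rcases lt_or_gt_of_ne hne with hlt | hlt
        · exact hdiff m m' hlt heq hm.2 hm'.2
        · exact hdiff m' m hlt heq.symm hm'.2 hm.2
    rwa [card_range] at this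
  calc ∑ n ∈ Icc 1 N, _ ≤ ∑ n ∈ Icc 1 N, (N / K + 1) := Finset.sum_le_sum hfib
    _ = N * (N / K + 1) := by simp

/-- Chebyshev: few residues `a` have a large exponential sum. -/
lemma card_bad (h : ℤ) (r N q K R : ℕ) (hqp : q.Prime) (hK : 0 < K) (hr : 2 ≤ r) (hrR : r ≤ R)
    (hq : R ^ K < q) (hh : h ≠ 0) (hhq : |h| < q) (ξ : ℝ) {δ : ℝ} (hδ : 0 < δ) (hN : 0 < N) :
    (((range q).filter (fun a : ℕ => δ * N < ‖S h r N (ξ + (a:ℝ) / q)‖)).card : ℝ) ≤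
      q * ((1 / K + 1 / N) / δ ^ 2) := by
  have h1 := variance h r N q hqp.pos ξ
  have h2 := card_pairs h r N q K R hqp hK hr hrR hq hh hhq
  have hNR : (0:ℝ) < N := by exact_mod_cast hN
  have hKR : (0:ℝ) < K := by exact_mod_cast hK
  have hqR : (0:ℝ) < q := by exact_mod_cast hqp.pos
  have h3 : ((((range q).filter (fun a : ℕ => δ * N < ‖S h r N (ξ + (a:ℝ) / q)‖)).card : ℝ)) * (δ * N) ^ 2 ≤
      ∑ a ∈ range q, ‖S h r N (ξ + (a:ℝ) / q)‖ ^ 2 := by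
    calc ((((range q).filter (fun a : ℕ => δ * N < ‖S h r N (ξ + (a:ℝ) / q)‖)).card : ℝ)) * (δ * N) ^ 2
        = ∑ a ∈ (range q).filter (fun a : ℕ => δ * N < ‖S h r N (ξ + (a:ℝ) / q)‖), (δ * N) ^ 2 := by
          rw [Finset.sum_const, nsmul_eq_mul]
      _ ≤ ∑ a ∈ (range q).filter (fun a : ℕ => δ * N < ‖S h r N (ξ + (a:ℝ) / q)‖),
            ‖S h r N (ξ + (a:ℝ) / q)‖ ^ 2 := by
          apply Finset.sum_le_sum
          intro a ha
          rw [mem_filter] at ha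
          exact pow_le_pow_left₀ (by positivity) ha.2.le 2
      _ ≤ _ := Finset.sum_le_sum_of_subset_of_nonneg (filter_subset _ _) (fun _ _ _ => by positivity)
  have h4 : ((((Icc 1 N ×ˢ Icc 1 N).filter
        (fun p : ℕ × ℕ => (q:ℤ) ∣ h * ((r:ℤ) ^ p.1 - (r:ℤ) ^ p.2))).card : ℕ) : ℝ) ≤
      N * (N / K + 1) := by
    have h5 : ((((Icc 1 N ×ˢ Icc 1 N).filter
        (fun p : ℕ × ℕ => (q:ℤ) ∣ h * ((r:ℤ) ^ p.1 - (r:ℤ) ^ p.2))).card : ℕ) : ℝ) ≤
        ((N * (N / K + 1) : ℕ) : ℝ) := by exact_mod_cast h2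
    refine h5.trans ?_
    push_cast
    have : ((N / K : ℕ) : ℝ) ≤ (N:ℝ) / K := Nat.cast_div_le
    nlinarith
  have h6 : ((((range q).filter (fun a : ℕ => δ * N < ‖S h r N (ξ + (a:ℝ) / q)‖)).card : ℝ)) * (δ * N) ^ 2 ≤
      q * (N * (N / K + 1)) := h3.trans (h1.trans (by gcongr))
  rw [← le_div_iff₀ (by positivity)] at h6
  refine h6.trans (le_of_eq ?_)
  field_simp

end Pool.Agent.H349R2
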