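import Mathlib
import Pool.Agent.H349R2.Defs
import Pool.Agent.H349R2.Maj
import Pool.Agent.H349R2.Var

open Finset

namespace Pool.Agent.H349R2

lemma EpsEquidist.mono {ε ε' x : ℝ} {r N : ℕ} (h : EpsEquidist ε x r N) (he : ε ≤ ε') :
    EpsEquidist ε' x r N :=
  fun a b ha hab hb => (h a b ha hab hb).trans he

lemma cells_to_disc (K0 N : ℕ) (hK0 : 0 < K0) (hN : 0 < N) (u : ℕ → ℝ) (hu0 : ∀ n, 0 ≤ u n)
    (hu1 : ∀ n, u n < 1) {τ : ℝ} (hτ : 0 ≤ τ)
    (hcell : ∀ i < K0, (((Icc 1 N).filter (fun n => (i:ℝ) / K0 ≤ u n ∧ u n < ((i:ℝ) + 1) / K0)).card : ℝ)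
      ≤ N * (1 / K0 + τ))
    (a b : ℝ) (ha : 0 ≤ a) (hab : a < b) (hb : b ≤ 1) :
    |((((Icc 1 N).filter (fun n => a ≤ u n ∧ u n < b)).card : ℝ) / N) - (b - a)| ≤
      2 / K0 + (K0 + 2) * τ := by
  classical
  have hKR : (0:ℝ) < K0 := by exact_mod_cast hK0
  have hNR : (0:ℝ) < N := by exact_mod_cast hN
  set cell : ℕ → Finset ℕ := fun i =>
    (Icc 1 N).filter (fun n => (i:ℝ) / K0 ≤ u n ∧ u n < ((i:ℝ) + 1) / K0) with hcelldef
  have hcover : ∀ (I : Finset ℕ), (∀ i ∈ I, i < K0) → ∀ (A : Finset ℕ), A ⊆ Icc 1 N →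
      (∀ n ∈ A, ⌊(K0:ℝ) * u n⌋₊ ∈ I) → (A.card : ℝ) ≤ I.card * (N * (1 / K0 + τ)) := by
    intro I hI A hA hAI
    have hsub : A ⊆ I.biUnion cell := by
      intro n hn
      rw [mem_biUnion]
      refine ⟨_, hAI n hn, ?_⟩
      rw [hcelldef]
      simp only [mem_filter]
      refine ⟨hA hn, ?_, ?_⟩
      · rw [div_le_iff₀ hKR, mul_comm]
        exact Nat.floor_le (by have := hu0 n; positivity)
      · rw [lt_div_iff₀ hKR, mul_comm]
        exact Nat.lt_floor_add_one _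
    have h1 : A.card ≤ ∑ i ∈ I, (cell i).card := (card_le_card hsub).trans card_biUnion_le
    have h2 : (A.card : ℝ) ≤ ∑ i ∈ I, ((cell i).card : ℝ) := by exact_mod_cast h1
    refine h2.trans ?_
    calc ∑ i ∈ I, ((cell i).card : ℝ) ≤ ∑ i ∈ I, (N * (1 / K0 + τ)) :=
          Finset.sum_le_sum fun i hi => hcell i (hI i hi)
      _ = I.card * (N * (1 / K0 + τ)) := by rw [Finset.sum_const, nsmul_eq_mul]
  have hfl : ∀ n, ⌊(K0:ℝ) * u n⌋₊ < K0 := by
    intro n
    rw [Nat.floor_lt (by have := hu0 n; positivity)]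
    have := hu1 n
    nlinarith
  set G := (Icc 1 N).filter (fun n => a ≤ u n ∧ u n < b) with hG
  set G' := (Icc 1 N).filter (fun n => ¬ (a ≤ u n ∧ u n < b)) with hG'
  have htot : (G.card : ℝ) + G'.card = N := by
    have := card_filter_add_card_filter_not (s := Icc 1 N) (fun n => a ≤ u n ∧ u n < b)
    rw [Nat.card_Icc, Nat.add_sub_cancel] at this
    exact_mod_cast this
  -- upper bound
  have hup : (G.card : ℝ) ≤ (K0 * (b - a) + 2) * (N * (1 / K0 + τ)) := by
    have h1 := hcover (Ico ⌊(K0:ℝ) * a⌋₊ ⌈(K0:ℝ) * b⌉₊) ?_ G (filter_subset _ _) ?_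
    · refine h1.trans ?_
      apply mul_le_mul_of_nonneg_right _ (by positivity)
      rw [Nat.card_Ico]
      have h2 : ⌊(K0:ℝ) * a⌋₊ ≤ ⌈(K0:ℝ) * b⌉₊ := by
        have h3 : (⌊(K0:ℝ) * a⌋₊ : ℝ) ≤ ⌈(K0:ℝ) * b⌉₊ :=
          (Nat.floor_le (by positivity)).trans
            ((mul_le_mul_of_nonneg_left hab.le hKR.le).trans (Nat.le_ceil _))
        exact_mod_cast h3
      rw [Nat.cast_sub h2]
      have h3 := Nat.lt_floor_add_one ((K0:ℝ) * a)
      have h4 := Nat.ceil_lt_add_one (a := (K0:ℝ) * b) (by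
        have : 0 ≤ b := by linarith
        positivity)
      linarith
    · intro i hi
      rw [mem_Ico] at hi
      have h5 : (i:ℝ) < K0 * b := Nat.lt_ceil.mp hi.2
      have h6 : (i:ℝ) < K0 := by nlinarith
      exact_mod_cast h6
    · intro n hn
      rw [hG, mem_filter] at hn
      rw [mem_Ico]
      constructor
      · exact Nat.floor_le_floor (mul_le_mul_of_nonneg_left hn.2.1 hKR.le)
      · rw [Nat.lt_ceil]
        have h5 := Nat.floor_le (a := (K0:ℝ) * u n) (by have := hu0 n; positivity)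
        have h6 : (K0:ℝ) * u n < K0 * b := mul_lt_mul_of_pos_left hn.2.2 hKR
        linarith
  have hlow : (G'.card : ℝ) ≤ (K0 * (1 - (b - a)) + 2) * (N * (1 / K0 + τ)) := by
    have h1 := hcover (range ⌈(K0:ℝ) * a⌉₊ ∪ Ico ⌊(K0:ℝ) * b⌋₊ K0) ?_ G' (filter_subset _ _) ?_
    · refine h1.trans ?_
      apply mul_le_mul_of_nonneg_right _ (by positivity)
      have h2 : ((range ⌈(K0:ℝ) * a⌉₊ ∪ Ico ⌊(K0:ℝ) * b⌋₊ K0).card : ℝ) ≤
          (⌈(K0:ℝ) * a⌉₊ : ℝ) + ((K0 - ⌊(K0:ℝ) * b⌋₊ : ℕ) : ℝ) := by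
        have := card_union_le (range ⌈(K0:ℝ) * a⌉₊) (Ico ⌊(K0:ℝ) * b⌋₊ K0)
        rw [card_range, Nat.card_Ico] at this
        exact_mod_cast this
      refine h2.trans ?_
      have h3 : ⌊(K0:ℝ) * b⌋₊ ≤ K0 := by
        apply Nat.floor_le_of_le
        nlinarith
      rw [Nat.cast_sub h3]
      have h4 := Nat.lt_floor_add_one ((K0:ℝ) * b)
      have h5 := Nat.ceil_lt_add_one (a := (K0:ℝ) * a) (by positivity)
      linarith
    · intro i hi
      rw [mem_union, mem_range, mem_Ico] at hi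
      rcases hi with hi | hi
      · have h5 : (i:ℝ) < K0 * a := Nat.lt_ceil.mp hi
        have h6 : (i:ℝ) < K0 := by nlinarith
        exact_mod_cast h6
      · exact hi.2
    · intro n hn
      rw [hG', mem_filter] at hn
      rw [mem_union, mem_range, mem_Ico]
      by_cases hna : a ≤ u n
      · right
        have hnb : b ≤ u n := by
          by_contra hcon
          exact hn.2 ⟨hna, not_le.mp hcon⟩
        exact ⟨Nat.floor_le_floor (mul_le_mul_of_nonneg_left hnb hKR.le), hfl n⟩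
      · left
        rw [Nat.lt_ceil]
        have h5 := Nat.floor_le (a := (K0:ℝ) * u n) (by have := hu0 n; positivity)
        have h6 : (K0:ℝ) * u n < K0 * a := mul_lt_mul_of_pos_left (not_le.mp hna) hKR
        linarith
  have hkk : (K0:ℝ) * (1 / K0) = 1 := by field_simp
  have hba : b - a ≤ 1 := by linarith
  have hba0 : 0 < b - a := by linarith
  have e1 : (K0 * (b - a) + 2) * (1 / K0 + τ) ≤ (b - a) + (2 / K0 + (K0 + 2) * τ) := by
    have : (K0 * (b - a) + 2) * (1 / K0 + τ) = (b - a) + 2 / K0 + (K0 * (b - a) + 2) * τ := by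
      field_simp
    rw [this]
    have : (K0 * (b - a) + 2) * τ ≤ (K0 + 2) * τ := by
      apply mul_le_mul_of_nonneg_right _ hτ
      nlinarith
    linarith
  have e2 : (K0 * (1 - (b - a)) + 2) * (1 / K0 + τ) ≤ (1 - (b - a)) + (2 / K0 + (K0 + 2) * τ) := by
    have : (K0 * (1 - (b - a)) + 2) * (1 / K0 + τ) =
        (1 - (b - a)) + 2 / K0 + (K0 * (1 - (b - a)) + 2) * τ := by
      field_simp
    rw [this]
    have : (K0 * (1 - (b - a)) + 2) * τ ≤ (K0 + 2) * τ := by
      apply mul_le_mul_of_nonneg_right _ hτ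
      nlinarith
    linarith
  rw [abs_le]
  constructor
  · rw [neg_le_sub_iff_le_add, ← sub_le_iff_le_add, le_div_iff₀ hNR]
    nlinarith
  · rw [sub_le_iff_le_add, div_le_iff₀ hNR]
    nlinarith

lemma fract_eq_cell (x : ℝ) : Int.fract x < 1 := Int.fract_lt_one x

lemma cell_count (c : ℤ →₀ ℂ) (K0 i r N : ℕ) (κ η x : ℝ)
    (h0 : ∀ x : UnitAddCircle, 0 ≤ (trigEval c x).re + κ)
    (h1 : ∀ x : ℝ, (i:ℝ) / K0 ≤ Int.fract x → Int.fract x < ((i:ℝ) + 1) / K0 →
        1 ≤ (trigEval c (x : UnitAddCircle)).re + κ)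
    (h2 : (c 0).re ≤ 1 / K0 + 3 * κ)
    (hS : ∀ h ∈ c.support, h ≠ 0 → ‖S h r N x‖ ≤ η * N) (hη : 0 ≤ η) :
    (((Icc 1 N).filter (fun n : ℕ => (i:ℝ) / K0 ≤ Int.fract (x * (r:ℝ) ^ n) ∧
      Int.fract (x * (r:ℝ) ^ n) < ((i:ℝ) + 1) / K0)).card : ℝ) ≤
      N * (1 / K0 + (4 * κ + (∑ h ∈ c.support, ‖c h‖) * η)) := by
  classical
  have step1 : (((Icc 1 N).filter (fun n : ℕ => (i:ℝ) / K0 ≤ Int.fract (x * (r:ℝ) ^ n) ∧
      Int.fract (x * (r:ℝ) ^ n) < ((i:ℝ) + 1) / K0)).card : ℝ) ≤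
      ∑ n ∈ Icc 1 N, ((trigEval c ((x * (r:ℝ) ^ n : ℝ) : UnitAddCircle)).re + κ) := by
    rw [card_eq_sum_ones, Nat.cast_sum, Finset.sum_filter]
    apply Finset.sum_le_sum
    intro n _
    split_ifs with hn
    · simpa using h1 _ hn.1 hn.2
    · exact h0 _
  refine step1.trans ?_
  rw [Finset.sum_add_distrib, Finset.sum_const, Nat.card_Icc, Nat.add_sub_cancel, nsmul_eq_mul]
  have step2 : ∑ n ∈ Icc 1 N, (trigEval c ((x * (r:ℝ) ^ n : ℝ) : UnitAddCircle)).re =
      (∑ h ∈ c.support, c h * S h r N x).re := by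
    rw [← Complex.re_sum]
    congr 1
    unfold trigEval S Finsupp.sum
    rw [Finset.sum_comm]
    refine Finset.sum_congr rfl fun h _ => ?_
    rw [Finset.mul_sum]
  rw [step2]
  have step3 : (∑ h ∈ c.support, c h * S h r N x).re ≤
      N * (c 0).re + (∑ h ∈ c.support, ‖c h‖) * (η * N) := by
    have hz : S 0 r N x = N := by
      unfold S
      simp
    have h3 : ∀ h ∈ c.support, (c h * S h r N x).re ≤
        (if h = 0 then N * (c 0).re else 0) + ‖c h‖ * (η * N) := by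
      intro h hh
      split_ifs with hh0
      · subst hh0
        rw [hz]
        simp only [Complex.mul_re, Complex.natCast_re, Complex.natCast_im, mul_zero, sub_zero]
        have : 0 ≤ ‖c 0‖ * (η * N) := by positivity
        linarith [mul_comm (c 0).re (N:ℝ)]
      · have h4 : (c h * S h r N x).re ≤ ‖c h * S h r N x‖ := Complex.re_le_norm _
        rw [norm_mul] at h4
        have h5 := mul_le_mul_of_nonneg_left (hS h hh hh0) (norm_nonneg (c h))
        linarith
    rw [Complex.re_sum]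
    refine (Finset.sum_le_sum h3).trans ?_
    rw [Finset.sum_add_distrib, Finset.sum_ite_eq', Finset.sum_mul]
    apply add_le_add_left
    split_ifs with h00
    · exact le_rfl
    · rw [Finsupp.notMem_support_iff] at h00
      rw [h00]; simp
  have hNR : (0:ℝ) ≤ N := Nat.cast_nonneg N
  nlinarith [mul_le_mul_of_nonneg_left h2 hNR]

/-- prefix comparison -/
lemma S_prefix (h : ℤ) (r N N' : ℕ) (hNN : N' ≤ N) (x : ℝ) :
    ‖S h r N x‖ ≤ ‖S h r N' x‖ + ((N:ℝ) - N') := by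
  have hsplit : Icc 1 N = Icc 1 N' ∪ Ioc N' N := by
    ext n; simp only [mem_Icc, mem_union, mem_Ioc]; omega
  have hdisj : Disjoint (Icc 1 N') (Ioc N' N) := by
    rw [Finset.disjoint_left]
    intro n hn hn'
    rw [mem_Icc] at hn; rw [mem_Ioc] at hn'; omega
  unfold S
  rw [hsplit, Finset.sum_union hdisj]
  refine (norm_add_le _ _).trans ?_
  gcongr
  refine (norm_sum_le _ _).trans ?_
  have : ∀ n ∈ Ioc N' N, ‖(fourier h ((x * (r:ℝ) ^ n : ℝ) : UnitAddCircle) : ℂ)‖ ≤ 1 := by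
    intro n _
    exact le_of_eq (Circle.norm_coe _)
  refine (Finset.sum_le_sum this).trans ?_
  rw [Finset.sum_const, Nat.card_Ioc, nsmul_eq_mul, mul_one, Nat.cast_sub hNN]

set_option maxHeartbeats 4000000 in
/-- Uniform statement for all real numbers `ξ`. -/
theorem uniform (R : ℕ) (ε δ : ℝ) (hε : 0 < ε) (hδ : 0 < δ) :
    ∃ q M0 : ℕ, 0 < q ∧ ∀ ξ : ℝ, ∀ M : ℕ, M0 ≤ M →
      ∃ bad : Finset ℕ, (bad.card : ℝ) ≤ ε * q ∧ ∀ a : ℕ, a < q → a ∉ bad →
        ∀ N : ℕ, δ * M ≤ N → N ≤ M →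
          ∀ r : ℕ, 2 ≤ r → r ≤ R → EpsEquidist ε (ξ + (a:ℝ) / q) r N := by
  classical
  -- number of cells
  obtain ⟨K0, hK0⟩ := exists_nat_gt (max 1 (17 / ε))
  have hK01 : (1:ℝ) < K0 := (le_max_left _ _).trans_lt hK0
  have hK0ε : 17 / ε < K0 := (le_max_right _ _).trans_lt hK0
  have hK0pos : 0 < K0 := by
    have : (0:ℝ) < K0 := by linarith
    exact_mod_cast this
  have hKR : (0:ℝ) < K0 := by exact_mod_cast hK0pos
  set κ : ℝ := 1 / (K0:ℝ) ^ 2 with hκ
  have hκ0 : 0 < κ := by positivity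
  choose c hc0 hc1 hc2 using fun i => exists_majorant hK0pos hκ0 i
  set F : Finset ℤ := ((range K0).biUnion (fun i => (c i).support)).filter (fun h => h ≠ 0) with hF
  set C : ℝ := 1 + ∑ i ∈ range K0, ∑ h ∈ (c i).support, ‖c i h‖ with hC
  have hC1 : 1 ≤ C := by
    have : 0 ≤ ∑ i ∈ range K0, ∑ h ∈ (c i).support, ‖c i h‖ := by positivity
    linarith
  set η : ℝ := κ / C with hη
  have hη0 : 0 < η := by positivity
  have hκ1 : κ < 1 := by
    rw [hκ, div_lt_one (by positivity)]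
    nlinarith
  have hη1 : η < 1 := by
    rw [hη, div_lt_one (by positivity)]
    linarith
  -- block number
  obtain ⟨L, hL⟩ := exists_nat_gt (2 / (δ * η))
  have hL0 : (0:ℝ) < L := by
    have : 0 < 2 / (δ * η) := by positivity
    linarith
  have hLpos : 0 < L := by exact_mod_cast hL0
  set W : ℝ := (F.card : ℝ) * (R + 1) * (2 * L + 1) * (2 / (η / 2) ^ 2) with hW
  have hW0 : 0 ≤ W := by positivity
  obtain ⟨K, hK⟩ := exists_nat_gt (W / ε + 1)
  have hK1 : (0:ℝ) < K := by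
    have : 0 ≤ W / ε := by positivity
    linarith
  have hKpos : 0 < K := by exact_mod_cast hK1
  -- bound on frequencies
  obtain ⟨q, hq1, hqp⟩ := Nat.exists_infinite_primes (R ^ K + 1 + F.sup Int.natAbs + 1)
  refine ⟨q, 2 * L * K + 1, hqp.pos, ?_⟩
  intro ξ M hM
  have hqR : (0:ℝ) < q := by exact_mod_cast hqp.pos
  set B : ℕ := M / L with hB
  have hBK : K ≤ B := by
    rw [hB, Nat.le_div_iff_mul_le hLpos]
    nlinarith
  have hBpos : 0 < B := lt_of_lt_of_le hKpos hBK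
  have hBR : (0:ℝ) < B := by exact_mod_cast hBpos
  have hBM : (B:ℝ) * L ≤ M := by
    have := Nat.div_mul_le_self M L
    exact_mod_cast this
  have hMB : (M:ℝ) ≤ 2 * L * B := by
    have h1 := Nat.div_add_mod M L
    have h2 := Nat.mod_lt M hLpos
    have h3 : M ≤ 2 * L * B := by
      have : L * 1 ≤ L * B := Nat.mul_le_mul_left L hBpos
      calc M = L * (M / L) + M % L := h1.symm
        _ ≤ L * B + L * 1 := by rw [← hB]; omega
        _ ≤ L * B + L * B := by omega
        _ = 2 * L * B := by ring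
    exact_mod_cast h3
  -- index set of events
  set T : Finset (ℤ × ℕ × ℕ) := F ×ˢ (Icc 2 R) ×ˢ (Icc 1 (2 * L)) with hT
  set badE : ℤ × ℕ × ℕ → Finset ℕ := fun t =>
    (range q).filter (fun a : ℕ => (η / 2) * ((t.2.2 * B : ℕ) : ℝ) < ‖S t.1 t.2.1 (t.2.2 * B) (ξ + (a:ℝ) / q)‖) with hbadE
  refine ⟨T.biUnion badE, ?_, ?_⟩
  swap
  · intro a ha hnot N hN1 hN2 r hr2 hrR
    set x : ℝ := ξ + (a:ℝ) / q with hx
    have hgood : ∀ h ∈ F, ∀ j ∈ Icc 1 (2 * L), ‖S h r (j * B) x‖ ≤ (η / 2) * ((j * B : ℕ) : ℝ) := by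
      intro h hh j hj
      by_contra hcon
      apply hnot
      rw [mem_biUnion]
      refine ⟨(h, r, j), ?_, ?_⟩
      · rw [hT]
        simp only [mem_product, mem_Icc] at hj ⊢
        exact ⟨hh, ⟨hr2, hrR⟩, hj⟩
      · rw [hbadE]
        simp only [mem_filter]
        exact ⟨mem_range.mpr ha, not_le.mp hcon⟩
    have hMpos : (0:ℝ) < M := by
      have : 0 < M := by omega
      exact_mod_cast this
    have hNposR : (0:ℝ) < N := by
      have : 0 < δ * M := by positivity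
      linarith
    have hNpos : 0 < N := by exact_mod_cast hNposR
    -- B ≤ (η/2) N
    have hBN : (B:ℝ) ≤ (η / 2) * N := by
      have h1 : 2 < L * (δ * η) := by
        rwa [div_lt_iff₀ (by positivity)] at hL
      -- B ≤ M / L ≤ N/(δ L)
      have h2 : (B:ℝ) * L * δ ≤ N := by
        calc (B:ℝ) * L * δ ≤ M * δ := by gcongr
          _ = δ * M := mul_comm _ _
          _ ≤ N := hN1
      have h3 : (B:ℝ) * 2 ≤ B * (L * (δ * η)) := by gcongr
      have h4 : (B:ℝ) * (L * (δ * η)) = (B * L * δ) * η := by ring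
      have h5 : (B * L * δ) * η ≤ N * η := by gcongr
      linarith
    set j : ℕ := N / B with hj
    have hj1 : 1 ≤ j := by
      rw [hj, Nat.one_le_div_iff hBpos]
      have : (B:ℝ) ≤ N := by nlinarith
      exact_mod_cast this
    have hj2 : j ≤ 2 * L := by
      rw [hj]
      have h1 : N ≤ 2 * L * B := by
        have : (N:ℝ) ≤ 2 * L * B := by
          have : (N:ℝ) ≤ M := by exact_mod_cast hN2
          linarith
        exact_mod_cast this
      exact Nat.div_le_of_le_mul (by rw [mul_comm]; exact h1)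
    have hjB : j * B ≤ N := Nat.div_mul_le_self N B
    have hjB2 : (N:ℝ) - ((j * B : ℕ) : ℝ) ≤ B := by
      have h1 := Nat.div_add_mod N B
      have h2 := Nat.mod_lt N hBpos
      have h3 : N ≤ j * B + B := by
        rw [hj]
        calc N = B * (N / B) + N % B := h1.symm
          _ ≤ (N / B) * B + B := by rw [mul_comm]; omega
      have h4 : (N:ℝ) ≤ ((j * B : ℕ) : ℝ) + B := by exact_mod_cast h3
      linarith
    have hSN : ∀ h ∈ F, ‖S h r N x‖ ≤ η * N := by
      intro h hh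
      have h1 := S_prefix h r N (j * B) hjB x
      have h2 := hgood h hh j (mem_Icc.mpr ⟨hj1, hj2⟩)
      have h3 : ((j * B : ℕ) : ℝ) ≤ N := by exact_mod_cast hjB
      have h4 : (η / 2) * ((j * B : ℕ) : ℝ) ≤ (η / 2) * N := by gcongr
      linarith
    intro α β hα hαβ hβ
    have hτ : (0:ℝ) ≤ 5 * κ := by positivity
    have hd := cells_to_disc K0 N hK0pos hNpos (fun n => Int.fract (x * (r:ℝ) ^ n))
      (fun n => Int.fract_nonneg _) (fun n => Int.fract_lt_one _) hτ ?_ α β hα hαβ hβ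
    · refine hd.trans ?_
      -- 2/K0 + (K0+2)*5κ ≤ 17/K0 ≤ ε
      have h1 : 2 / (K0:ℝ) + (K0 + 2) * (5 * κ) ≤ 17 / K0 := by
        rw [hκ]
        rw [div_add' _ _ _ hKR.ne', div_le_div_iff_of_pos_right hKR]
        have h11 : ((K0:ℝ) + 2) * (5 * (1 / (K0:ℝ) ^ 2)) * K0 = 5 + 10 / K0 := by
          field_simp
          ring
        rw [h11]
        have h12 : 10 / (K0:ℝ) ≤ 10 := by
          rw [div_le_iff₀ hKR]; linarith
        linarith
      have h2 : 17 / (K0:ℝ) ≤ ε := by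
        rw [div_lt_iff₀ hε] at hK0ε
        rw [div_le_iff₀ hKR, mul_comm]
        exact hK0ε.le
      exact h1.trans h2
    · intro i hi
      have h1 := cell_count (c i) K0 i r N κ η x (hc0 i) (hc1 i) (hc2 i) ?_ hη0.le
      · refine h1.trans ?_
        apply mul_le_mul_of_nonneg_left _ hNposR.le
        have h2 : (∑ h ∈ (c i).support, ‖c i h‖) * η ≤ κ := by
          have h3 : (∑ h ∈ (c i).support, ‖c i h‖) ≤ C := by
            have := Finset.single_le_sum (f := fun i => ∑ h ∈ (c i).support, ‖c i h‖)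
              (fun i _ => by positivity) (mem_range.mpr hi)
            linarith
          calc (∑ h ∈ (c i).support, ‖c i h‖) * η ≤ C * η := by gcongr
            _ = κ := by rw [hη]; field_simp
        linarith
      · intro h hh hh0
        apply hSN
        rw [hF, mem_filter, mem_biUnion]
        exact ⟨⟨i, mem_range.mpr hi, hh⟩, hh0⟩
  have hcardE : ∀ t ∈ T, ((badE t).card : ℝ) ≤ q * ((1 / K + 1 / B) / (η / 2) ^ 2) := by
    intro t ht
    rw [hT] at ht
    simp only [mem_product, mem_Icc] at ht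
    obtain ⟨ht1, ⟨ht2, ht3⟩, ht4, ht5⟩ := ht
    have hh0 : t.1 ≠ 0 := by
      rw [hF, mem_filter] at ht1
      exact ht1.2
    have hhq : |t.1| < q := by
      have h1 : t.1.natAbs ≤ F.sup Int.natAbs := Finset.le_sup (f := Int.natAbs) ht1
      rw [Int.abs_eq_natAbs]
      have : t.1.natAbs < q := by omega
      exact_mod_cast this
    have hN0 : 0 < t.2.2 * B := Nat.mul_pos (by omega) hBpos
    have h1 := card_bad t.1 t.2.1 (t.2.2 * B) q K R hqp hKpos ht2 ht3 (by omega) hh0 hhq ξ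
      (δ := η / 2) (by positivity) hN0
    refine h1.trans ?_
    gcongr
    have : B ≤ t.2.2 * B := Nat.le_mul_of_pos_left B (by omega)
    exact_mod_cast this
  have hTcard : (T.card : ℝ) ≤ (F.card : ℝ) * (R + 1) * (2 * L + 1) := by
    rw [hT, card_product, card_product, Nat.card_Icc, Nat.card_Icc]
    have h1 : ((R + 1 - 2 : ℕ) : ℝ) ≤ R + 1 := by
      have : R + 1 - 2 ≤ R + 1 := Nat.sub_le _ _
      exact_mod_cast this
    have h2 : ((2 * L + 1 - 1 : ℕ) : ℝ) ≤ 2 * L + 1 := by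
      have : 2 * L + 1 - 1 ≤ 2 * L + 1 := Nat.sub_le _ _
      exact_mod_cast this
    rw [Nat.cast_mul, Nat.cast_mul, mul_assoc]
    gcongr
  have hfinal : ((T.biUnion badE).card : ℝ) ≤
      T.card * (q * ((1 / K + 1 / B) / (η / 2) ^ 2)) := by
    have h1 : (T.biUnion badE).card ≤ ∑ t ∈ T, (badE t).card := card_biUnion_le
    have h2 : ((T.biUnion badE).card : ℝ) ≤ ∑ t ∈ T, ((badE t).card : ℝ) := by exact_mod_cast h1
    refine h2.trans ?_
    calc ∑ t ∈ T, ((badE t).card : ℝ) ≤ ∑ t ∈ T, (q * ((1 / K + 1 / B) / (η / 2) ^ 2)) :=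
          Finset.sum_le_sum hcardE
      _ = T.card * (q * ((1 / K + 1 / B) / (η / 2) ^ 2)) := by
          rw [Finset.sum_const, nsmul_eq_mul]
  refine hfinal.trans ?_
  have hBKR : (1:ℝ) / B ≤ 1 / K := by
    apply one_div_le_one_div_of_le hK1
    exact_mod_cast hBK
  calc T.card * (q * ((1 / K + 1 / B) / (η / 2) ^ 2))
      ≤ ((F.card : ℝ) * (R + 1) * (2 * L + 1)) * (q * ((1 / K + 1 / K) / (η / 2) ^ 2)) := by
        gcongr
    _ = W * (1 / K) * q := by rw [hW]; ring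
    _ ≤ ε * q := by
        apply mul_le_mul_of_nonneg_right _ hqR.le
        rw [mul_one_div, div_le_iff₀ hK1]
        have : W / ε < K := by linarith
        rw [div_lt_iff₀ hε] at this
        linarith

end Pool.Agent.H349R2
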